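import Mathlib
import Pool.Agent.Helper34.KreinMore

set_option autoImplicit false

open MeasureTheory

namespace Pool.Agent.Results.MP_a2f955_an.MinDecomp

/-- The symmetric open interval `(-A, A)`, for `A` in `(0, ∞]`. -/
def band (A : ENNReal) : Set ℝ := {x : ℝ | ENNReal.ofReal |x| < A}

/-- Value at `t` of the almost periodic polynomial `∑ c_x e^{i x t}` (finite sum). -/
noncomputable def apEval (c : ℝ →₀ ℂ) (t : ℝ) : ℂ :=
  ∑ x ∈ c.support, c x * Complex.exp (Complex.I * (x : ℂ) * (t : ℂ))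

/-- The functional `Φ_f`, sending `∑ c_x e_x` to `∑ c_x f(x)`. -/
noncomputable def functional (f : ℝ → ℂ) (c : ℝ →₀ ℂ) : ℂ :=
  ∑ x ∈ c.support, c x * f x

/-- `C` bounds the functional `Φ_f` on almost periodic polynomials with exponents in `(-A, A)`. -/
def IsBound (A : ENNReal) (f : ℝ → ℂ) (C : ℝ) : Prop :=
  0 ≤ C ∧ ∀ c : ℝ →₀ ℂ, (∀ x ∈ c.support, x ∈ band A) →
    ∀ M : ℝ, (∀ t : ℝ, ‖apEval c t‖ ≤ M) → ‖functional f c‖ ≤ C * M

/-- `f` restricted to `(-A, A)` belongs to `R_A`. -/
def MemR (A : ENNReal) (f : ℝ → ℂ) : Prop := ∃ C : ℝ, IsBound A f C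

/-- The norm of `f` in `R_A`: the operator norm of `Φ_f`, the least bound. -/
noncomputable def normR (A : ENNReal) (f : ℝ → ℂ) : ℝ := sInf {C : ℝ | IsBound A f C}

/-- `f` is Hermitian on `(-A, A)`. -/
def Hermitian (A : ENNReal) (f : ℝ → ℂ) : Prop :=
  ∀ x ∈ band A, f (-x) = (starRingEnd ℂ) (f x)

/-- `f` belongs to the cone `P_A`: it is in `R_A` and `Φ_f(p)` is a nonnegative real number
whenever `p` is real and nonnegative on the line, with exponents in `(-A, A)`. -/
def MemP (A : ENNReal) (f : ℝ → ℂ) : Prop :=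
  MemR A f ∧ ∀ c : ℝ →₀ ℂ, (∀ x ∈ c.support, x ∈ band A) →
    (∀ t : ℝ, (apEval c t).im = 0 ∧ 0 ≤ (apEval c t).re) →
      (functional f c).im = 0 ∧ 0 ≤ (functional f c).re

/-- `f = f_+ - f_-` is a minimal decomposition. -/
def IsMinimalDecomposition (A : ENNReal) (f fp fm : ℝ → ℂ) : Prop :=
  MemP A fp ∧ MemP A fm ∧ (∀ x ∈ band A, f x = fp x - fm x) ∧
    ((normR A f : ℝ) : ℂ) = fp 0 + fm 0

/-- Sanity: `(-A, A)` is the usual interval for finite `A` and the line for `A = ∞`. -/
lemma band_ofReal (A : ℝ) : band (ENNReal.ofReal A) = Set.Ioo (-A) A := by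
  ext x
  simp only [band, Set.mem_ofPred_eq, Set.mem_Ioo]
  rw [ENNReal.ofReal_lt_ofReal_iff', abs_lt]
  constructor
  · rintro ⟨h, -⟩
    exact h
  · intro h
    exact ⟨h, by linarith [h.1, h.2]⟩

lemma band_top : band ⊤ = Set.univ := by
  ext x
  simp [band]

lemma isOpen_band (A : ENNReal) : IsOpen (band A) := by
  have h : Continuous fun x : ℝ => ENNReal.ofReal |x| :=
    ENNReal.continuous_ofReal.comp continuous_abs
  exact isOpen_lt h continuous_const

lemma neg_mem_band {A : ENNReal} {x : ℝ} (hx : x ∈ band A) : -x ∈ band A := by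
  simpa [band] using hx

open Pool.Agent.Helper34.Krein in
lemma exists_dominating {A : ENNReal} (hA : 0 < A) {f : ℝ → ℂ} (hf : MemP A f) :
    ∃ P : PosFun, P.toLin 1 ≤ (f 0).re ∧
      ∀ h ∈ Finsupp.supported ℂ ℂ (band A), ‖Phi f h‖ ≤ P.toLin (ap h).normComp := by
  refine exists_posFun (band A) f (f 0).re ?_
  intro h hh M hM
  refine norm_le_of_pos (D := band A) (by simpa [band] using hA) (fun x hx => neg_mem_band hx)
    ?_ h hh M hM
  intro c hc hcpos
  rw [Phi_apply]
  refine hf.2 c (fun x hx => (Finsupp.mem_supported ℂ c).1 hc hx) ?_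
  intro t
  have := hcpos t
  rw [ap_apply] at this
  exact this

open Pool.Agent.Helper34.Krein in
/-- In every minimal decomposition of a measurable Hermitian element of `R_A` both parts are
measurable. -/
theorem result (A : ENNReal) (hA : 0 < A) (f : ℝ → ℂ) (_ : MemR A f)
    (hfm : AEMeasurable f (volume.restrict (band A))) (_ : Hermitian A f)
    (fp fm : ℝ → ℂ) (hmin : IsMinimalDecomposition A f fp fm) :
    (MemP A fp ∧ AEMeasurable fp (volume.restrict (band A))) ∧
      (MemP A fm ∧ AEMeasurable fm (volume.restrict (band A))) := by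
  obtain ⟨hp, hm, hdec, hnorm⟩ := hmin
  obtain ⟨Pp, hPp1, hPp⟩ := exists_dominating hA hp
  obtain ⟨Pm, hPm1, hPm⟩ := exists_dominating hA hm
  set P := Pp.add Pm with hPdef
  have hnn : ∀ (Q : PosFun) (h : ℝ →₀ ℂ), 0 ≤ Q.toLin (ap h).normComp := by
    intro Q h
    apply Q.nonneg
    intro t
    simp
  have hPfp : ∀ h ∈ Finsupp.supported ℂ ℂ (band A), ‖Phi fp h‖ ≤ P.toLin (ap h).normComp := by
    intro h hh
    have h1 := hPp h hh
    have h2 := hnn Pm h
    rw [hPdef, PosFun.add_toLin]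
    linarith
  have hPfm : ∀ h ∈ Finsupp.supported ℂ ℂ (band A), ‖Phi fm h‖ ≤ P.toLin (ap h).normComp := by
    intro h hh
    have h1 := hPm h hh
    have h2 := hnn Pp h
    rw [hPdef, PosFun.add_toLin]
    linarith
  have hPf : ∀ h ∈ Finsupp.supported ℂ ℂ (band A), ‖Phi f h‖ ≤ P.toLin (ap h).normComp := by
    intro h hh
    have h1 : Phi f h = Phi fp h - Phi fm h := by
      rw [Phi_apply, Phi_apply, Phi_apply, ← Finset.sum_sub_distrib]
      refine Finset.sum_congr rfl fun x hx => ?_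
      rw [hdec x ((Finsupp.mem_supported ℂ h).1 hh hx)]
      ring
    rw [h1, hPdef, PosFun.add_toLin]
    exact (norm_sub_le _ _).trans (add_le_add (hPp h hh) (hPm h hh))
  obtain ⟨v, hv, hrep⟩ := P.exists_vector (band A) f hPf
  obtain ⟨vp, -, hrepp⟩ := P.exists_vector (band A) fp hPfp
  obtain ⟨vm, -, hrepm⟩ := P.exists_vector (band A) fm hPfm
  have hπ := P.isRep_rep
  have hF : AEStronglyMeasurable (fun l : ℝ => inner ℂ v (P.rep l P.one))
      (volume.restrict (band A)) := by
    refine hfm.aestronglyMeasurable.congr ?_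
    filter_upwards [self_mem_ae_restrict (isOpen_band A).measurableSet] with x hx
    exact hrep x hx
  obtain ⟨uc, u0, u2, hsum, huc, hu0, hpyth, hz⟩ :=
    hπ.decomposition P.one v (isOpen_band A) hF
  -- the bad part vanishes by minimality
  have hbound : IsBound A f (‖v‖ * ‖uc + u0‖) := by
    refine ⟨by positivity, fun c hc M hM => ?_⟩
    have h1 := norm_Phi_coeff_le P.contractive v (uc + u0) c M (by
      intro t
      rw [ap_apply]
      exact hM t)
    rw [Phi_apply] at h1
    have h2 : functional f c = ∑ x ∈ c.support, c x * inner ℂ v (P.rep x (uc + u0)) := by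
      refine Finset.sum_congr rfl fun x hx => ?_
      rw [hrep x (hc x hx), hsum, map_add (P.rep x) (uc + u0) u2, inner_add_right,
        hz x (hc x hx), add_zero]
    rw [h2]
    exact h1
  have hN : normR A f ≤ ‖v‖ * ‖uc + u0‖ := csInf_le ⟨0, fun _ h => h.1⟩ hbound
  have hN2 : normR A f = (fp 0).re + (fm 0).re := by
    have := congrArg Complex.re hnorm
    simpa using this
  have hone : ‖P.one‖ ^ 2 ≤ normR A f := by
    rw [P.norm_one_sq, hN2, hPdef, PosFun.add_toLin]
    exact add_le_add hPp1 hPm1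
  have hu2 : u2 = 0 := by
    have h1 : ‖P.one‖ ^ 2 ≤ ‖P.one‖ * ‖uc + u0‖ :=
      hone.trans (hN.trans (mul_le_mul_of_nonneg_right hv (norm_nonneg _)))
    have h2 : ‖u2‖ ^ 2 ≤ 0 := by
      by_cases h0 : ‖P.one‖ = 0
      · rw [h0] at hpyth
        nlinarith [sq_nonneg ‖uc + u0‖]
      · have h3 : 0 < ‖P.one‖ := lt_of_le_of_ne (norm_nonneg _) (Ne.symm h0)
        have h4 : ‖P.one‖ ≤ ‖uc + u0‖ := by
          rw [sq] at h1
          exact le_of_mul_le_mul_left h1 h3
        nlinarith [norm_nonneg (uc + u0)]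
    have h3 : ‖u2‖ = 0 := by nlinarith [norm_nonneg u2]
    exact norm_eq_zero.1 h3
  rw [hu2, add_zero] at hsum
  have hgood : ∀ z : P.Hil, AEMeasurable (fun x => (inner ℂ z (P.rep x P.one) : ℂ))
      (volume.restrict (band A)) := by
    intro z
    rw [hsum]
    exact (aestronglyMeasurable_good huc hu0 z).aemeasurable.restrict
  refine ⟨⟨hp, (hgood vp).congr ?_⟩, ⟨hm, (hgood vm).congr ?_⟩⟩
  · filter_upwards [self_mem_ae_restrict (isOpen_band A).measurableSet] with x hx
    exact (hrepp x hx).symm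
  · filter_upwards [self_mem_ae_restrict (isOpen_band A).measurableSet] with x hx
    exact (hrepm x hx).symm

end Pool.Agent.Results.MP_a2f955_an.MinDecomp
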